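import Pool.Agent.Helper65.RP.Ord

/-!
# Project RP: orders of the solutions of an algebraic equation
-/

set_option autoImplicit false

namespace Pool.Agent.Helper45.RP

open MvPolynomial Filter Topology
open Pool.Agent.Helper65.RP

section
variable {Kb Ω : Type} [Field Kb] [NormedField Ω] [Algebra Kb Ω]
  {𝒰 : Ultrafilter ℕ} {s : ℕ → ℝ} {t u : ℕ → Ω}

/-- A polynomial of degree less than `d` has order at least `1 - d`. -/
theorem geOrd_poly (hs : Tendsto s (𝒰 : Filter ℕ) atTop) (ht : HasOrd 𝒰 s t (-1))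
    {r : Polynomial Kb} {d : ℕ} (hr : ∀ j, d ≤ j → r.coeff j = 0) :
    GeOrd 𝒰 s (fun n => Polynomial.aeval (t n) r) (1 - d) := by
  have h1 : GeOrd 𝒰 s (fun n => ∑ j ∈ Finset.range d,
      algebraMap Kb Ω (r.coeff j) * t n ^ j) (1 - d) := by
    refine GeOrd.sum hs _ fun j hj => ?_
    refine ((ht.pow hs j).ge hs).const_mul hs (algebraMap Kb Ω (r.coeff j)) |>.mono hs ?_
    have h2 : (j : ℝ) + 1 ≤ d := by exact_mod_cast Finset.mem_range.1 hj
    linarith
  refine h1.congr (Eventually.of_forall fun n => ?_)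
  have h2 : r.natDegree < d ∨ r = 0 := by
    by_cases h0 : r = 0
    · exact Or.inr h0
    · left
      by_contra h3
      push Not at h3
      exact (Polynomial.leadingCoeff_ne_zero.2 h0) (hr _ h3)
  rcases h2 with h2 | h2
  · rw [Polynomial.aeval_eq_sum_range' h2]
    refine Finset.sum_congr rfl fun j _ => ?_
    rw [Algebra.smul_def]
  · rw [h2]
    simp

/-- A nonzero polynomial of degree `d` has order `-d`. -/
theorem hasOrd_poly (hs : Tendsto s (𝒰 : Filter ℕ) atTop) (ht : HasOrd 𝒰 s t (-1))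
    {r : Polynomial Kb} (hr : r ≠ 0) :
    HasOrd 𝒰 s (fun n => Polynomial.aeval (t n) r) (-(r.natDegree : ℝ)) := by
  have hc : algebraMap Kb Ω r.leadingCoeff ≠ 0 := by
    rw [Ne, map_eq_zero]
    exact Polynomial.leadingCoeff_ne_zero.2 hr
  have h1 : HasOrd 𝒰 s (fun n => algebraMap Kb Ω r.leadingCoeff * t n ^ r.natDegree)
      (-(r.natDegree : ℝ)) := by
    have h2 := (hasOrd_const (𝒰 := 𝒰) hs hc).mul (ht.pow hs r.natDegree)
    have e1 : (0 : ℝ) + r.natDegree * (-1) = -(r.natDegree : ℝ) := by ring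
    rwa [e1] at h2
  have h3 : GeOrd 𝒰 s (fun n => Polynomial.aeval (t n)
      (r - Polynomial.C r.leadingCoeff * Polynomial.X ^ r.natDegree)) (1 - r.natDegree) := by
    refine geOrd_poly hs ht fun j hj => ?_
    rw [Polynomial.coeff_sub, Polynomial.coeff_C_mul_X_pow]
    rcases eq_or_lt_of_le hj with h4 | h4
    · subst h4
      simp
    · rw [Polynomial.coeff_eq_zero_of_natDegree_lt h4, if_neg h4.ne']
      simp
  refine (h1.add_ge hs h3 (by linarith)).congr (Eventually.of_forall fun n => ?_)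
  simp only [map_sub, map_mul, map_pow, Polynomial.aeval_C, Polynomial.aeval_X]
  ring

/-- Newton's lemma. -/
theorem newton (hs : Tendsto s (𝒰 : Filter ℕ) atTop) (ht : HasOrd 𝒰 s t (-1))
    {r : ℕ → Polynomial Kb} {δ : ℕ} (hr : ∃ j ≤ δ, r j ≠ 0)
    (h : ∀ᶠ n in (𝒰 : Filter ℕ), ∑ j ∈ Finset.range (δ + 1),
      Polynomial.aeval (t n) (r j) * u n ^ j = 0)
    (hu : ¬ ∀ᶠ n in (𝒰 : Filter ℕ), u n = 0) :
    ∃ k : ℤ, HasOrd 𝒰 s u ((k : ℝ) / (δ.factorial : ℝ)) := by
  classical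
  have hu' : ∀ᶠ n in (𝒰 : Filter ℕ), u n ≠ 0 := by
    rw [← Ultrafilter.eventually_not] at hu
    exact hu
  set J : Finset ℕ := (Finset.range (δ + 1)).filter (fun j => r j ≠ 0) with hJ
  set w : ℕ → ℕ → Ω := fun j n => Polynomial.aeval (t n) (r j) * u n ^ j with hw
  have hJne : J.Nonempty := by
    obtain ⟨j, hj, hj0⟩ := hr
    exact ⟨j, Finset.mem_filter.2 ⟨Finset.mem_range.2 (Nat.lt_succ_of_le hj), hj0⟩⟩
  have hord : ∀ j ∈ J, HasOrd 𝒰 s (fun n => Polynomial.aeval (t n) (r j))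
      (-((r j).natDegree : ℝ)) :=
    fun j hj => hasOrd_poly hs ht (Finset.mem_filter.1 hj).2
  have hsum : ∀ᶠ n in (𝒰 : Filter ℕ), ∑ j ∈ J, w j n = 0 := by
    filter_upwards [h] with n hn
    rw [hJ, Finset.sum_filter_of_ne]
    · exact hn
    · intro j _ hj0 h0
      refine hj0 ?_
      simp only [hw, h0, map_zero, zero_mul]
  -- the largest term
  obtain ⟨j₀, hj₀, hmax⟩ := exists_eventually_mem (𝒰 := 𝒰) J
    (p := fun j n => ∀ i ∈ J, ‖w i n‖ ≤ ‖w j n‖)
    (Eventually.of_forall fun n => Finset.exists_max_image J (fun j => ‖w j n‖) hJne)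
  have hw0 : ∀ᶠ n in (𝒰 : Filter ℕ), w j₀ n ≠ 0 := by
    filter_upwards [(hord j₀ hj₀).1, hu'] with n h1 h2
    exact mul_ne_zero h1 (pow_ne_zero _ h2)
  -- a second term of the same size
  obtain ⟨j₁, hj₁, hsec⟩ := exists_eventually_mem (𝒰 := 𝒰) (J.erase j₀)
    (p := fun j n => ‖w j₀ n‖ ≤ J.card * ‖w j n‖) (by
      filter_upwards [hsum, hw0] with n h1 h2
      by_contra hcon
      push Not at hcon
      have h3 : w j₀ n = - ∑ j ∈ J.erase j₀, w j n := by
        rw [← Finset.add_sum_erase _ _ hj₀] at h1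
        exact eq_neg_of_add_eq_zero_left h1
      have h4 : ‖w j₀ n‖ ≤ ∑ j ∈ J.erase j₀, ‖w j n‖ := by
        rw [h3, norm_neg]
        exact norm_sum_le _ _
      have h5 : 0 < ‖w j₀ n‖ := norm_pos_iff.2 h2
      have hJp : (0 : ℝ) < J.card := by exact_mod_cast Finset.card_pos.2 hJne
      by_cases hne : (J.erase j₀).Nonempty
      · have h6 : (J.card : ℝ) * ∑ j ∈ J.erase j₀, ‖w j n‖ <
            ∑ j ∈ J.erase j₀, ‖w j₀ n‖ := by
          rw [Finset.mul_sum]
          exact Finset.sum_lt_sum_of_nonempty hne hcon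
        rw [Finset.sum_const, nsmul_eq_mul] at h6
        have h7 : ((J.erase j₀).card : ℝ) ≤ J.card := by
          exact_mod_cast Finset.card_le_card (Finset.erase_subset _ _)
        nlinarith
      · rw [Finset.not_nonempty_iff_eq_empty] at hne
        rw [hne, Finset.sum_empty] at h4
        linarith)
  have hj₁J : j₁ ∈ J := Finset.mem_of_mem_erase hj₁
  have hne : j₁ ≠ j₀ := Finset.ne_of_mem_erase hj₁
  have hle0 : j₀ ≤ δ := Nat.lt_succ_iff.1 (Finset.mem_range.1 (Finset.mem_filter.1 hj₀).1)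
  have hle1 : j₁ ≤ δ := Nat.lt_succ_iff.1 (Finset.mem_range.1 (Finset.mem_filter.1 hj₁J).1)
  set D : ℝ := (j₀ : ℝ) - j₁ with hD
  have hD0 : D ≠ 0 := by
    rw [hD, sub_ne_zero]
    exact fun h => hne (by exact_mod_cast h.symm)
  obtain ⟨e₀, he₀⟩ : ∃ e : ℝ, e = ((r j₀).natDegree : ℝ) := ⟨_, rfl⟩
  obtain ⟨e₁, he₁⟩ : ∃ e : ℝ, e = ((r j₁).natDegree : ℝ) := ⟨_, rfl⟩
  -- the comparison
  have hcmp : Tendsto (fun n => (Real.log ‖w j₀ n‖ - Real.log ‖w j₁ n‖) / s n)
      (𝒰 : Filter ℕ) (𝓝 0) := by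
    have h1 : Tendsto (fun n => Real.log J.card / s n) (𝒰 : Filter ℕ) (𝓝 0) :=
      tendsto_const_nhds.div_atTop hs
    refine squeeze_zero' ?_ ?_ h1
    · filter_upwards [hmax, hw0, (hord j₁ hj₁J).1, hu', eventually_pos hs] with n h2 h3 h4 h5 h6
      refine div_nonneg ?_ h6.le
      rw [sub_nonneg]
      refine Real.log_le_log ?_ (h2 j₁ hj₁J)
      rw [norm_pos_iff]
      exact mul_ne_zero h4 (pow_ne_zero _ h5)
    · filter_upwards [hsec, hw0, (hord j₁ hj₁J).1, hu', eventually_pos hs] with n h2 h3 h4 h5 h6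
      have hw1 : w j₁ n ≠ 0 := mul_ne_zero h4 (pow_ne_zero _ h5)
      refine div_le_div_of_nonneg_right ?_ h6.le
      have hJp : (0 : ℝ) < J.card := by exact_mod_cast Finset.card_pos.2 hJne
      have h7 := Real.log_le_log (norm_pos_iff.2 h3) h2
      rw [Real.log_mul hJp.ne' (norm_ne_zero_iff.2 hw1)] at h7
      linarith
  have hlim : Tendsto (fun n => -Real.log ‖u n‖ / s n) (𝒰 : Filter ℕ) (𝓝 ((e₀ - e₁) / D)) := by
    have h1 := ((hord j₀ hj₀).2.sub (hord j₁ hj₁J).2).add hcmp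
    have h2 := h1.const_mul (-(1 / D))
    have e1 : -(1 / D) * (-((r j₀).natDegree : ℝ) - -((r j₁).natDegree : ℝ) + 0) =
        (e₀ - e₁) / D := by
      rw [← he₀, ← he₁]
      field_simp
      ring
    rw [e1] at h2
    refine h2.congr' ?_
    filter_upwards [(hord j₀ hj₀).1, (hord j₁ hj₁J).1, hu', eventually_pos hs] with n h3 h4 h5 h6
    simp only [hw, norm_mul, norm_pow]
    rw [Real.log_mul (norm_ne_zero_iff.2 h3) (pow_ne_zero _ (norm_ne_zero_iff.2 h5)),
      Real.log_mul (norm_ne_zero_iff.2 h4) (pow_ne_zero _ (norm_ne_zero_iff.2 h5)),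
      Real.log_pow, Real.log_pow]
    have h7 : (j₀ : ℝ) = D + j₁ := by rw [hD]; ring
    rw [h7]
    field_simp
    ring
  -- the denominator
  have hdiv : ((j₀ : ℤ) - j₁) ∣ (δ.factorial : ℤ) := by
    rw [← Int.natAbs_dvd]
    have h1 : ((j₀ : ℤ) - j₁).natAbs ∣ δ.factorial := by
      apply Nat.dvd_factorial
      · have h2 : (j₀ : ℤ) - j₁ ≠ 0 := by
          rw [sub_ne_zero]
          exact fun h => hne (by exact_mod_cast h.symm)
        exact Int.natAbs_pos.2 h2
      · omega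
    exact_mod_cast h1
  obtain ⟨c, hc⟩ := hdiv
  have hc' : (δ.factorial : ℝ) = D * c := by
    rw [hD]
    exact_mod_cast hc
  have hfac : (δ.factorial : ℝ) ≠ 0 := by exact_mod_cast δ.factorial_ne_zero
  refine ⟨(((r j₀).natDegree : ℤ) - (r j₁).natDegree) * c, hu', ?_⟩
  have e2 : (((((r j₀).natDegree : ℤ) - (r j₁).natDegree) * c : ℤ) : ℝ) / (δ.factorial : ℝ) =
      (e₀ - e₁) / D := by
    rw [hc']
    rw [hc'] at hfac
    have hc0 : (c : ℝ) ≠ 0 := right_ne_zero_of_mul hfac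
    push_cast
    rw [← he₀, ← he₁]
    field_simp
  rw [e2]
  exact hlim

end

end Pool.Agent.Helper45.RP
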