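import Pool.Agent.Helper45.RP.Rel
import Pool.Agent.Helper45.RP.Newton

/-!
# Project RP: values of the valuation, and residues
-/

set_option autoImplicit false
set_option linter.unusedSectionVars false

namespace Pool.Agent.Helper45.RP

open MvPolynomial Filter Topology
open Pool.Agent.Helper65.RP

section
variable {K Kb Ω : Type} [Field K] [Field Kb] [Algebra K Kb]
  [NormedField Ω] [Algebra K Ω] [Algebra Kb Ω] [IsScalarTower K Kb Ω] {N : ℕ}
  {𝒰 : Ultrafilter ℕ} {s : ℕ → ℝ} {z : ℕ → Fin N → K} {i₀ : Fin N}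

theorem ev_aeval (z : ℕ → Fin N → K) (i₀ : Fin N) (r : Polynomial Kb) (n : ℕ) :
    ev Ω z (Polynomial.aeval (X i₀ : MvPolynomial (Fin N) Kb) r) n =
      Polynomial.aeval (algebraMap K Ω (z n i₀)) r := by
  have h1 : eval (fun i => algebraMap K Kb (z n i))
      (Polynomial.aeval (X i₀ : MvPolynomial (Fin N) Kb) r) =
      Polynomial.aeval (algebraMap K Kb (z n i₀)) r := by
    rw [Polynomial.aeval_def, Polynomial.aeval_def, Polynomial.hom_eval₂, eval_X]
    congr 1
    ext c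
    simp
  rw [ev, h1, IsScalarTower.algebraMap_apply K Kb Ω (z n i₀),
    Polynomial.aeval_algebraMap_apply Ω (algebraMap K Kb (z n i₀)) r]

/-- Relations of bounded degree between polynomials and the coordinate `i₀`. -/
theorem lev_rel (h : Lev Ω 𝒰 s z i₀) : ∃ δ : ℕ, ∀ p q : MvPolynomial (Fin N) Kb,
    (¬ ∀ᶠ n in (𝒰 : Filter ℕ), ev Ω z q n = 0) →
      ∃ r : ℕ → Polynomial Kb, (∃ j ≤ δ, r j ≠ 0) ∧ ∀ᶠ n in (𝒰 : Filter ℕ),
        ∑ j ∈ Finset.range (δ + 1), Polynomial.aeval (algebraMap K Ω (z n i₀)) (r j) *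
          ev Ω z p n ^ j * ev Ω z q n ^ (δ - j) = 0 := by
  classical
  set P : Ideal (MvPolynomial (Fin N) Kb) := van 𝒰 (fun n i => algebraMap K Kb (z n i)) with hP
  have hPp : P.IsPrime := van_isPrime 𝒰 _
  let A := MvPolynomial (Fin N) Kb ⧸ P
  let E := FractionRing A
  let ζ : Fin N → E := fun i => algebraMap A E (Ideal.Quotient.mk P (X i))
  have hζ : ∀ F : MvPolynomial (Fin N) Kb, aeval ζ F = algebraMap A E (Ideal.Quotient.mk P F) := by
    intro F
    induction F using MvPolynomial.induction_on with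
    | C c =>
      rw [MvPolynomial.aeval_C]
      exact IsScalarTower.algebraMap_apply Kb A E c
    | add p q hp hq => rw [map_add, hp, hq, map_add, map_add]
    | mul_X p i hp => rw [map_mul, hp, MvPolynomial.aeval_X, map_mul, map_mul]
  have hζ0 : ∀ F : MvPolynomial (Fin N) Kb, aeval ζ F = 0 ↔
      ∀ᶠ n in (𝒰 : Filter ℕ), ev Ω z F n = 0 := by
    intro F
    rw [hζ, FaithfulSMul.algebraMap_eq_zero_iff A E, Ideal.Quotient.eq_zero_iff_mem, hP, mem_van]
    simp only [ev_eq_zero_iff]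
  have hT : ∀ r : Polynomial Kb, Polynomial.aeval (ζ i₀) r =
      aeval ζ (Polynomial.aeval (X i₀ : MvPolynomial (Fin N) Kb) r) := by
    intro r
    have h1 := Polynomial.aeval_algHom_apply (aeval ζ : MvPolynomial (Fin N) Kb →ₐ[Kb] E)
      (X i₀) r
    rw [MvPolynomial.aeval_X] at h1
    exact h1
  obtain ⟨δ, hδ⟩ := rel_field (k := Kb) (E := E) ζ (ζ i₀) (by
    intro r hr h0
    rw [hT, hζ0] at h0
    have h1 := (hasOrd_poly (Ω := Ω) h.hs h.top hr).1
    obtain ⟨n, h2, h3⟩ := (h0.and h1).exists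
    rw [ev_aeval] at h2
    exact h3 h2) (by
    intro i
    obtain ⟨R, hR0, hR⟩ := h.alg i
    refine ⟨R.map (Polynomial.mapRingHom (algebraMap K Kb)), ?_, ?_⟩
    · rw [Ne, Polynomial.map_eq_zero_iff]
      · exact hR0
      · exact Polynomial.map_injective _ (algebraMap K Kb).injective
    · have h1 : (R.map (Polynomial.mapRingHom (algebraMap K Kb))).eval₂
          ((Polynomial.aeval (ζ i₀) : Polynomial Kb →ₐ[Kb] E) : Polynomial Kb →+* E) (ζ i) =
          aeval ζ ((R.map (Polynomial.mapRingHom (algebraMap K Kb))).eval₂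
            ((Polynomial.aeval (X i₀ : MvPolynomial (Fin N) Kb) :
              Polynomial Kb →ₐ[Kb] MvPolynomial (Fin N) Kb) :
                Polynomial Kb →+* MvPolynomial (Fin N) Kb) (X i)) := by
        have h2 := Polynomial.hom_eval₂ (R.map (Polynomial.mapRingHom (algebraMap K Kb)))
          ((Polynomial.aeval (X i₀ : MvPolynomial (Fin N) Kb) :
              Polynomial Kb →ₐ[Kb] MvPolynomial (Fin N) Kb) :
                Polynomial Kb →+* MvPolynomial (Fin N) Kb)
          ((aeval ζ : MvPolynomial (Fin N) Kb →ₐ[Kb] E) : MvPolynomial (Fin N) Kb →+* E) (X i)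
        have h3 : ((aeval ζ : MvPolynomial (Fin N) Kb →ₐ[Kb] E) :
            MvPolynomial (Fin N) Kb →+* E) (X i) = ζ i := MvPolynomial.aeval_X ζ i
        have h4 : ((aeval ζ : MvPolynomial (Fin N) Kb →ₐ[Kb] E) :
            MvPolynomial (Fin N) Kb →+* E).comp
            ((Polynomial.aeval (X i₀ : MvPolynomial (Fin N) Kb) :
              Polynomial Kb →ₐ[Kb] MvPolynomial (Fin N) Kb) :
                Polynomial Kb →+* MvPolynomial (Fin N) Kb) =
            ((Polynomial.aeval (ζ i₀) : Polynomial Kb →ₐ[Kb] E) : Polynomial Kb →+* E) :=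
          RingHom.ext fun r => (hT r).symm
        rw [h3, h4] at h2
        exact h2.symm
      rw [h1, hζ0]
      filter_upwards [hR] with n hn
      rw [ev_eq_zero_iff]
      rw [Polynomial.hom_eval₂, Polynomial.eval₂_map, eval_X]
      have h5 : ((eval fun i => algebraMap K Kb (z n i)).comp
          ((Polynomial.aeval (X i₀ : MvPolynomial (Fin N) Kb) :
              Polynomial Kb →ₐ[Kb] MvPolynomial (Fin N) Kb) :
                Polynomial Kb →+* MvPolynomial (Fin N) Kb)).comp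
          (Polynomial.mapRingHom (algebraMap K Kb)) =
          (algebraMap K Kb).comp (Polynomial.evalRingHom (z n i₀)) := by
        ext c
        · simp
        · simp
      rw [h5, ← Polynomial.hom_eval₂]
      rw [Polynomial.eval_map] at hn
      rw [hn, map_zero])
  refine ⟨δ, fun p q hq => ?_⟩
  obtain ⟨r, hr, hsum⟩ := hδ p q (by rwa [Ne, hζ0])
  refine ⟨r, hr, ?_⟩
  have h1 : aeval ζ (∑ j ∈ Finset.range (δ + 1),
      Polynomial.aeval (X i₀ : MvPolynomial (Fin N) Kb) (r j) * p ^ j * q ^ (δ - j)) = 0 := by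
    rw [← hsum, map_sum]
    refine Finset.sum_congr rfl fun j _ => ?_
    rw [map_mul, map_mul, map_pow, map_pow, hT]
  rw [hζ0] at h1
  filter_upwards [h1] with n hn
  rw [← hn, ev_sum]
  refine Finset.sum_congr rfl fun j _ => ?_
  rw [ev_mul, ev_mul, ev_pow, ev_pow, ev_aeval]

/-- Values have a bounded denominator. -/
theorem exists_denom (h : Lev Ω 𝒰 s z i₀) : ∃ M : ℕ, 0 < M ∧
    ∀ p : MvPolynomial (Fin N) Kb, (∀ᶠ n in (𝒰 : Filter ℕ), ev Ω z p n = 0) ∨
      ∃ k : ℤ, HasOrd 𝒰 s (ev Ω z p) ((k : ℝ) / (M : ℝ)) := by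
  obtain ⟨δ, hδ⟩ := lev_rel (Kb := Kb) h
  refine ⟨δ.factorial, δ.factorial_pos, fun p => ?_⟩
  by_cases hp : ∀ᶠ n in (𝒰 : Filter ℕ), ev Ω z p n = 0
  · exact Or.inl hp
  right
  obtain ⟨r, hr, hsum⟩ := hδ p 1 (by
    intro h0
    obtain ⟨n, hn⟩ := h0.exists
    rw [ev_one] at hn
    exact one_ne_zero hn)
  refine newton h.hs h.top hr ?_ hp
  filter_upwards [hsum] with n hn
  rw [← hn]
  refine Finset.sum_congr rfl fun j _ => ?_
  rw [ev_one, one_pow, mul_one]

end

section
variable {K Kb Ω : Type} [Field K] [Field Kb] [Algebra K Kb] [IsAlgClosure K Kb]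
  [NormedField Ω] [IsAlgClosed Ω] [Algebra K Ω] [Algebra Kb Ω] [IsScalarTower K Kb Ω] {N : ℕ}
  {𝒰 : Ultrafilter ℕ} {s : ℕ → ℝ} {z : ℕ → Fin N → K} {i₀ : Fin N}

/-- D1 -/
theorem exists_group (h : Lev Ω 𝒰 s z i₀) :
    ∃ (a : ℕ) (A : Fin a → MvPolynomial (Fin N) Kb) (α : Fin a → ℝ), 0 < a ∧
      (∀ j, HasOrd 𝒰 s (ev Ω z (A j)) (α j)) ∧ (∀ j j', j ≠ j' → ∀ k : ℤ, α j - α j' ≠ k) ∧
      ∀ p : MvPolynomial (Fin N) Kb, (∀ᶠ n in (𝒰 : Filter ℕ), ev Ω z p n = 0) ∨
        ∃ k : ℤ, HasOrd 𝒰 s (ev Ω z p) ((k : ℝ) / a) := by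
  classical
  obtain ⟨M, hM, hval⟩ := exists_denom (Kb := Kb) h
  have : NeZero M := ⟨hM.ne'⟩
  have hM' : (M : ℝ) ≠ 0 := by exact_mod_cast hM.ne'
  have hmul : ∀ {p q : MvPolynomial (Fin N) Kb} {k l : ℤ},
      HasOrd 𝒰 s (ev Ω z p) ((k : ℝ) / (M : ℝ)) → HasOrd 𝒰 s (ev Ω z q) ((l : ℝ) / (M : ℝ)) →
      HasOrd 𝒰 s (ev Ω z (p * q)) (((k + l : ℤ) : ℝ) / (M : ℝ)) := by
    intro p q k l hp hq
    have h1 := hp.mul hq
    rw [← add_div] at h1
    push_cast
    exact h1.congr (Eventually.of_forall fun n => (ev_mul z p q n).symm)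
  have hone : HasOrd 𝒰 s (ev Ω z (1 : MvPolynomial (Fin N) Kb)) (((0 : ℤ) : ℝ) / (M : ℝ)) := by
    have h1 := hasOrd_const (Ω := Ω) (𝒰 := 𝒰) h.hs one_ne_zero
    rw [Int.cast_zero, zero_div]
    exact h1.congr (Eventually.of_forall fun n => (ev_one z n).symm)
  let S : AddSubmonoid (ZMod M) :=
    { carrier := {x | ∃ (p : MvPolynomial (Fin N) Kb) (k : ℤ),
        HasOrd 𝒰 s (ev Ω z p) ((k : ℝ) / (M : ℝ)) ∧ (k : ZMod M) = x}
      zero_mem' := ⟨1, 0, hone, by simp⟩
      add_mem' := by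
        rintro _ _ ⟨p, k, hp, rfl⟩ ⟨q, l, hq, rfl⟩
        exact ⟨p * q, k + l, hmul hp hq, by push_cast; rfl⟩ }
  let H : AddSubgroup (ZMod M) :=
    { S with
      neg_mem' := by
        intro x hx
        have h1 : -x = (M - 1) • x := by
          have h2 : (M : ℕ) • x = 0 := by
            rw [nsmul_eq_mul, ZMod.natCast_self, zero_mul]
          have h3 : (M - 1) • x + x = 0 := by
            rw [← succ_nsmul, Nat.sub_add_cancel hM, h2]
          exact (eq_neg_of_add_eq_zero_left h3).symm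
        have h4 : (M - 1) • x ∈ S := S.nsmul_mem hx _
        rw [h1]
        exact h4 }
  have hHmem : ∀ x, x ∈ H ↔ ∃ (p : MvPolynomial (Fin N) Kb) (k : ℤ),
      HasOrd 𝒰 s (ev Ω z p) ((k : ℝ) / (M : ℝ)) ∧ (k : ZMod M) = x := fun x => Iff.rfl
  have : Finite H := inferInstance
  obtain ⟨a, ha⟩ : ∃ a : ℕ, a = Nat.card H := ⟨_, rfl⟩
  have ha0 : 0 < a := by rw [ha]; exact Nat.card_pos
  have ha' : (a : ℝ) ≠ 0 := by exact_mod_cast ha0.ne'
  let e : Fin a ≃ H := (finCongr ha).trans (Finite.equivFin H).symm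
  have hch : ∀ j : Fin a, ∃ (p : MvPolynomial (Fin N) Kb) (k : ℤ),
      HasOrd 𝒰 s (ev Ω z p) ((k : ℝ) / (M : ℝ)) ∧ (k : ZMod M) = (e j : ZMod M) :=
    fun j => (hHmem _).1 (e j).2
  choose A kk hA hk using hch
  refine ⟨a, A, fun j => (kk j : ℝ) / (M : ℝ), ha0, hA, ?_, ?_⟩
  · intro j j' hj k hk'
    apply hj
    apply e.injective
    apply Subtype.ext
    rw [← hk, ← hk]
    rw [← sub_div, div_eq_iff hM'] at hk'
    have h1 : kk j - kk j' = k * M := by exact_mod_cast hk'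
    have h2 : kk j = kk j' + k * M := by linarith
    rw [h2]
    push_cast
    rw [ZMod.natCast_self, mul_zero, add_zero]
  · intro p
    rcases hval p with h1 | ⟨k, hk1⟩
    · exact Or.inl h1
    right
    have h2 : ((k : ℤ) : ZMod M) ∈ H := (hHmem _).2 ⟨p, k, hk1, rfl⟩
    have h3 : a • ((k : ℤ) : ZMod M) = 0 := by
      have h4 : a • (⟨((k : ℤ) : ZMod M), h2⟩ : H) = 0 := by
        rw [ha]
        exact card_nsmul_eq_zero'
      have h5 := congrArg (fun x : H => (x : ZMod M)) h4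
      exact h5
    have h4 : (M : ℤ) ∣ a * k := by
      rw [← ZMod.intCast_zmod_eq_zero_iff_dvd]
      push_cast
      rw [← nsmul_eq_mul]
      exact h3
    obtain ⟨c, hc⟩ := h4
    refine ⟨c, ?_⟩
    have h5 : (k : ℝ) / (M : ℝ) = (c : ℝ) / a := by
      have h6 : (a : ℝ) * k = M * c := by exact_mod_cast hc
      rw [div_eq_div_iff hM' ha']
      linarith
    rwa [← h5]

/-- Orders of products over a multiset. -/
theorem hasOrd_multiset {ι : Type} (hs : Tendsto s (𝒰 : Filter ℕ) atTop) (m : Multiset ι)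
    {w : ι → ℕ → Ω} {γ : ι → ℝ} (h : ∀ c ∈ m, HasOrd 𝒰 s (w c) (γ c)) :
    HasOrd 𝒰 s (fun n => (m.map fun c => w c n).prod) (m.map γ).sum := by
  induction m using Multiset.induction_on with
  | empty =>
    simp only [Multiset.map_zero, Multiset.prod_zero, Multiset.sum_zero]
    exact hasOrd_const hs one_ne_zero
  | cons c m ih =>
    have h1 := (h c (Multiset.mem_cons_self _ _)).mul
      (ih fun d hd => h d (Multiset.mem_cons_of_mem hd))
    simp only [Multiset.map_cons, Multiset.prod_cons, Multiset.sum_cons]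
    exact h1

theorem multiset_sum_le {ι : Type} (m : Multiset ι) {γ : ι → ℝ} {α : ℝ}
    (h : ∀ c ∈ m, γ c ≤ α) : (m.map γ).sum ≤ m.card * α := by
  induction m using Multiset.induction_on with
  | empty => simp
  | cons c m ih =>
    have h1 := h c (Multiset.mem_cons_self _ _)
    have h2 := ih fun d hd => h d (Multiset.mem_cons_of_mem hd)
    simp only [Multiset.map_cons, Multiset.sum_cons, Multiset.card_cons]
    push_cast
    linarith

/-- The homogenised factorisation. -/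
theorem hom_prod (R : Polynomial Kb) {δ : ℕ} (hR : R.natDegree ≤ δ)
    (hroots : R.roots.card = R.natDegree) (P Q : Ω) (hQ : Q ≠ 0) :
    ∑ j ∈ Finset.range (δ + 1), algebraMap Kb Ω (R.coeff j) * P ^ j * Q ^ (δ - j) =
      algebraMap Kb Ω R.leadingCoeff * Q ^ (δ - R.natDegree) *
        (R.roots.map fun c => P - algebraMap Kb Ω c * Q).prod := by
  have h1 : ∑ j ∈ Finset.range (δ + 1), algebraMap Kb Ω (R.coeff j) * P ^ j * Q ^ (δ - j) =
      Q ^ δ * Polynomial.aeval (P / Q) R := by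
    rw [Polynomial.aeval_eq_sum_range' (Nat.lt_succ_of_le hR), Finset.mul_sum]
    refine Finset.sum_congr rfl fun j hj => ?_
    have hj' : j ≤ δ := Nat.lt_succ_iff.1 (Finset.mem_range.1 hj)
    have h3 : Q ^ δ = Q ^ (δ - j) * Q ^ j := by
      rw [← pow_add, Nat.sub_add_cancel hj']
    rw [Algebra.smul_def, h3, div_pow]
    field_simp
  have h2 : Polynomial.aeval (P / Q) R = algebraMap Kb Ω R.leadingCoeff *
      (R.roots.map fun c => P / Q - algebraMap Kb Ω c).prod := by
    have h3 := Polynomial.C_leadingCoeff_mul_prod_multiset_X_sub_C hroots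
    have h4 := congrArg (Polynomial.aeval (P / Q)) h3
    rw [← h4, map_mul, Polynomial.aeval_C, map_multiset_prod, Multiset.map_map]
    congr 2
    refine Multiset.map_congr rfl fun c _ => ?_
    simp
  have h5 : (R.roots.map fun c => P - algebraMap Kb Ω c * Q).prod =
      Q ^ R.natDegree * (R.roots.map fun c => P / Q - algebraMap Kb Ω c).prod := by
    rw [← hroots]
    generalize R.roots = m
    induction m using Multiset.induction_on with
    | empty => simp
    | cons c m ih =>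
      simp only [Multiset.map_cons, Multiset.prod_cons, Multiset.card_cons]
      rw [ih, pow_succ]
      have h6 : P - algebraMap Kb Ω c * Q = (P / Q - algebraMap Kb Ω c) * Q := by
        field_simp
      rw [h6]
      ring
  have h7 : Q ^ δ = Q ^ (δ - R.natDegree) * Q ^ R.natDegree := by
    rw [← pow_add, Nat.sub_add_cancel hR]
  rw [h1, h2, h5, h7]
  ring

/-- D2 -/
theorem exists_const (h : Lev Ω 𝒰 s z i₀) {p q : MvPolynomial (Fin N) Kb} {α : ℝ}
    (hp : HasOrd 𝒰 s (ev Ω z p) α) (hq : HasOrd 𝒰 s (ev Ω z q) α) :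
    ∃ c : Kb, c ≠ 0 ∧ ((∀ᶠ n in (𝒰 : Filter ℕ), ev Ω z (p - C c * q) n = 0) ∨
      ∃ β : ℝ, α < β ∧ HasOrd 𝒰 s (ev Ω z (p - C c * q)) β) := by
  classical
  have : IsAlgClosed Kb := IsAlgClosure.isAlgClosed K
  obtain ⟨M, hM, hval⟩ := exists_denom (Kb := Kb) h
  obtain ⟨δ, hδ⟩ := lev_rel (Kb := Kb) h
  have hq0 : ¬ ∀ᶠ n in (𝒰 : Filter ℕ), ev Ω z q n = 0 := by
    intro h0
    obtain ⟨n, h1, h2⟩ := (h0.and hq.1).exists
    exact h2 h1
  have hp0 : ¬ ∀ᶠ n in (𝒰 : Filter ℕ), ev Ω z p n = 0 := by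
    intro h0
    obtain ⟨n, h1, h2⟩ := (h0.and hp.1).exists
    exact h2 h1
  obtain ⟨r, hr, hsum⟩ := hδ p q hq0
  -- the degree in `T`
  set J : Finset ℕ := (Finset.range (δ + 1)).filter (fun j => r j ≠ 0) with hJ
  have hJne : J.Nonempty := by
    obtain ⟨j, hj, hj0⟩ := hr
    exact ⟨j, Finset.mem_filter.2 ⟨Finset.mem_range.2 (Nat.lt_succ_of_le hj), hj0⟩⟩
  obtain ⟨j₀, hj₀, hmax⟩ := Finset.exists_max_image J (fun j => (r j).natDegree) hJne
  obtain ⟨e, he⟩ : ∃ e, e = (r j₀).natDegree := ⟨_, rfl⟩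
  have hj₀δ : j₀ ≤ δ := Nat.lt_succ_iff.1 (Finset.mem_range.1 (Finset.mem_filter.1 hj₀).1)
  have hdeg : ∀ j ≤ δ, (r j).natDegree ≤ e := by
    intro j hj
    by_cases h0 : r j = 0
    · rw [h0]
      simp
    · rw [he]
      exact hmax j (Finset.mem_filter.2 ⟨Finset.mem_range.2 (Nat.lt_succ_of_le hj), h0⟩)
  set R : Polynomial Kb := ∑ j ∈ Finset.range (δ + 1),
    Polynomial.monomial j ((r j).coeff e) with hR
  have hRc : ∀ j ≤ δ, R.coeff j = (r j).coeff e := by
    intro j hj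
    rw [hR, Polynomial.finsetSum_coeff]
    simp only [Polynomial.coeff_monomial]
    rw [Finset.sum_ite_eq' (Finset.range (δ + 1)) j, if_pos (Finset.mem_range.2
      (Nat.lt_succ_of_le hj))]
  have hRd : R.natDegree ≤ δ := by
    refine Polynomial.natDegree_sum_le_of_forall_le _ _ fun j hj => ?_
    exact (Polynomial.natDegree_monomial_le _).trans (Nat.lt_succ_iff.1 (Finset.mem_range.1 hj))
  have hR0 : R ≠ 0 := by
    intro h0
    have h1 := hRc j₀ hj₀δ
    rw [h0, Polynomial.coeff_zero, he] at h1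
    exact (Polynomial.leadingCoeff_ne_zero.2 (Finset.mem_filter.1 hj₀).2) h1.symm
  have hroots : R.roots.card = R.natDegree :=
    (Polynomial.splits_iff_card_roots.1 (IsAlgClosed.splits R))
  -- the leading part is small
  have hsmall : GeOrd 𝒰 s (fun n => ∑ j ∈ Finset.range (δ + 1),
      algebraMap Kb Ω (R.coeff j) * ev Ω z p n ^ j * ev Ω z q n ^ (δ - j)) (δ * α + 1) := by
    have h1 : GeOrd 𝒰 s (fun n => ∑ j ∈ Finset.range (δ + 1),
        Polynomial.aeval (algebraMap K Ω (z n i₀))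
          (r j - Polynomial.C ((r j).coeff e) * Polynomial.X ^ e) *
            (ev Ω z p n ^ j * ev Ω z q n ^ (δ - j))) (1 - e + δ * α) := by
      refine GeOrd.sum h.hs _ fun j hj => ?_
      have hj' : j ≤ δ := Nat.lt_succ_iff.1 (Finset.mem_range.1 hj)
      refine GeOrd.mul ?_ ?_
      · refine geOrd_poly h.hs h.top fun i hi => ?_
        rw [Polynomial.coeff_sub, Polynomial.coeff_C_mul_X_pow]
        rcases eq_or_lt_of_le hi with h4 | h4
        · subst h4
          simp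
        · rw [Polynomial.coeff_eq_zero_of_natDegree_lt ((hdeg j hj').trans_lt h4), if_neg h4.ne']
          simp
      · have h2 := ((hp.pow h.hs j).mul (hq.pow h.hs (δ - j))).ge h.hs
        have e1 : (j : ℝ) * α + ((δ - j : ℕ) : ℝ) * α = δ * α := by
          rw [Nat.cast_sub hj']
          ring
        rwa [e1] at h2
    have h2 : HasOrd 𝒰 s (fun n => ((algebraMap K Ω (z n i₀)) ^ e)⁻¹) (e : ℝ) := by
      have h3 := (h.top.pow h.hs e).inv
      have e1 : -((e : ℝ) * (-1)) = e := by ring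
      rwa [e1] at h3
    have h3 := ((h2.ge h.hs).mul h1).neg
    have e1 : (e : ℝ) + (1 - e + δ * α) = δ * α + 1 := by ring
    rw [e1] at h3
    refine h3.congr ?_
    filter_upwards [hsum, h.top.1] with n hn hT
    have h4 : ∑ j ∈ Finset.range (δ + 1), Polynomial.aeval (algebraMap K Ω (z n i₀))
          (r j - Polynomial.C ((r j).coeff e) * Polynomial.X ^ e) *
            (ev Ω z p n ^ j * ev Ω z q n ^ (δ - j)) =
        - ((algebraMap K Ω (z n i₀)) ^ e * ∑ j ∈ Finset.range (δ + 1),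
          algebraMap Kb Ω (R.coeff j) * ev Ω z p n ^ j * ev Ω z q n ^ (δ - j)) := by
      rw [eq_neg_iff_add_eq_zero, ← hn, Finset.mul_sum, ← Finset.sum_add_distrib]
      refine Finset.sum_congr rfl fun j hj => ?_
      rw [hRc j (Nat.lt_succ_iff.1 (Finset.mem_range.1 hj))]
      simp only [map_sub, map_mul, map_pow, Polynomial.aeval_C, Polynomial.aeval_X]
      ring
    rw [h4]
    have h5 : (algebraMap K Ω (z n i₀)) ^ e ≠ 0 := pow_ne_zero _ hT
    rw [mul_neg, neg_neg, ← mul_assoc, inv_mul_cancel₀ h5, one_mul]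
  have hev : ∀ c n, ev Ω z (p - C c * q) n = ev Ω z p n - algebraMap Kb Ω c * ev Ω z q n := by
    intro c n
    rw [ev_sub, ev_mul, ev_C]
  by_cases hz : ∃ c ∈ R.roots, ∀ᶠ n in (𝒰 : Filter ℕ), ev Ω z (p - C c * q) n = 0
  · obtain ⟨c, -, hc⟩ := hz
    refine ⟨c, ?_, Or.inl hc⟩
    rintro rfl
    refine hp0 ?_
    filter_upwards [hc] with n hn
    rw [hev, map_zero, zero_mul, sub_zero] at hn
    exact hn
  · push Not at hz
    have hγ : ∀ c : Kb, ∃ γ : ℝ, c ∈ R.roots → HasOrd 𝒰 s (ev Ω z (p - C c * q)) γ := by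
      intro c
      rcases hval (p - C c * q) with h1 | ⟨k, hk⟩
      · refine ⟨0, fun hc => ?_⟩
        exfalso
        obtain ⟨n, h2, h3⟩ := ((hz c hc).and h1).exists
        exact h2 h3
      · exact ⟨_, fun _ => hk⟩
    choose γ hγ using hγ
    have h1 : HasOrd 𝒰 s (fun n => algebraMap Kb Ω R.leadingCoeff *
        ev Ω z q n ^ (δ - R.natDegree) *
          (R.roots.map fun c => ev Ω z (p - C c * q) n).prod)
        (0 + ((δ - R.natDegree : ℕ) : ℝ) * α + (R.roots.map γ).sum) := by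
      refine HasOrd.mul (HasOrd.mul (hasOrd_const h.hs ?_) (hq.pow h.hs _))
        (hasOrd_multiset h.hs R.roots hγ)
      rw [Ne, map_eq_zero]
      exact Polynomial.leadingCoeff_ne_zero.2 hR0
    have h2 : GeOrd 𝒰 s (fun n => algebraMap Kb Ω R.leadingCoeff *
        ev Ω z q n ^ (δ - R.natDegree) *
          (R.roots.map fun c => ev Ω z (p - C c * q) n).prod) (δ * α + 1) := by
      refine hsmall.congr ?_
      filter_upwards [hq.1] with n hn
      rw [hom_prod R hRd hroots _ _ hn]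
      simp only [hev]
    have h3 := h2.le_of_hasOrd h.hs h1
    by_cases hc : ∃ c ∈ R.roots, α < γ c
    · obtain ⟨c, hc1, hc2⟩ := hc
      refine ⟨c, ?_, Or.inr ⟨γ c, hc2, hγ c hc1⟩⟩
      rintro rfl
      have h4 : HasOrd 𝒰 s (ev Ω z (p - C (0 : Kb) * q)) α := by
        refine hp.congr (Eventually.of_forall fun n => ?_)
        rw [hev, map_zero, zero_mul, sub_zero]
      have h5 := (hγ 0 hc1).unique h4
      linarith
    · exfalso
      push Not at hc
      have h4 := multiset_sum_le R.roots hc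
      rw [hroots] at h4
      rw [Nat.cast_sub hRd] at h3
      nlinarith

end

end Pool.Agent.Helper45.RP
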