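import Pool.Agent.Helper65.RP.Ord

/-!
# Project RP: algebraic relations of bounded degree
-/

set_option autoImplicit false

namespace Pool.Agent.Helper45.RP

open MvPolynomial Filter Topology
open Pool.Agent.Helper65.RP

/-- In a field generated by finitely many elements algebraic over `k(T)`, all elements satisfy an
equation of bounded degree with coefficients polynomials in `T`, not all zero. -/
theorem rel_field {k E : Type} [Field k] [Field E] [Algebra k E] {N : ℕ} (ζ : Fin N → E) (T : E)
    (htr : ∀ r : Polynomial k, r ≠ 0 → Polynomial.aeval T r ≠ 0)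
    (halg : ∀ i, ∃ R : Polynomial (Polynomial k), R ≠ 0 ∧
      R.eval₂ ((Polynomial.aeval T : Polynomial k →ₐ[k] E) : Polynomial k →+* E) (ζ i) = 0) :
    ∃ δ : ℕ, ∀ p q : MvPolynomial (Fin N) k, aeval ζ q ≠ 0 →
      ∃ r : ℕ → Polynomial k, (∃ j ≤ δ, r j ≠ 0) ∧
        ∑ j ∈ Finset.range (δ + 1), Polynomial.aeval T (r j) * aeval ζ p ^ j *
          aeval ζ q ^ (δ - j) = 0 := by
  classical
  set L : IntermediateField k E := IntermediateField.adjoin k {T} with hL
  have hTL : T ∈ L := IntermediateField.mem_adjoin_simple_self k T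
  -- the generators are algebraic
  have h1 : ∀ i, IsIntegral L (ζ i) := by
    intro i
    obtain ⟨R, hR0, hR⟩ := halg i
    rw [← isAlgebraic_iff_isIntegral]
    set σ : Polynomial k →+* L :=
      ((Polynomial.aeval (⟨T, hTL⟩ : L) : Polynomial k →ₐ[k] L) : Polynomial k →+* L) with hσ
    have hσ1 : ∀ r, ((σ r : L) : E) = Polynomial.aeval T r := by
      intro r
      have h2 := Polynomial.aeval_algebraMap_apply E (⟨T, hTL⟩ : L) r
      exact h2.symm
    have hσ2 : (algebraMap L E).comp σ =
        ((Polynomial.aeval T : Polynomial k →ₐ[k] E) : Polynomial k →+* E) := by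
      ext r
      · exact hσ1 _
      · exact hσ1 _
    have hinj : Function.Injective σ := by
      rw [injective_iff_map_eq_zero]
      intro r hr
      by_contra hr0
      refine htr r hr0 ?_
      rw [← hσ1, hr]
      rfl
    refine ⟨R.map σ, ?_, ?_⟩
    · intro h0
      exact hR0 ((Polynomial.map_eq_zero_iff hinj).1 h0)
    · rw [Polynomial.aeval_def, Polynomial.eval₂_map, hσ2]
      exact hR
  set F : IntermediateField L E := IntermediateField.adjoin L (Set.range ζ) with hF
  have hfd : FiniteDimensional L F := by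
    apply IntermediateField.finiteDimensional_adjoin
    rintro x ⟨i, rfl⟩
    exact h1 i
  have hmem : ∀ p : MvPolynomial (Fin N) k, aeval ζ p ∈ F := by
    intro p
    induction p using MvPolynomial.induction_on with
    | C c =>
      rw [MvPolynomial.aeval_C]
      have h2 : algebraMap k E c = algebraMap L E (algebraMap k L c) :=
        IsScalarTower.algebraMap_apply k L E c
      rw [h2]
      exact F.algebraMap_mem _
    | add p q hp hq =>
      rw [map_add]
      exact F.add_mem hp hq
    | mul_X p i hp =>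
      rw [map_mul, MvPolynomial.aeval_X]
      exact F.mul_mem hp (IntermediateField.subset_adjoin L _ ⟨i, rfl⟩)
  refine ⟨Module.finrank L F, fun p q hq => ?_⟩
  set δ : ℕ := Module.finrank L F with hδ
  set u : F := ⟨aeval ζ p / aeval ζ q, F.div_mem (hmem p) (hmem q)⟩ with hu
  have hint : IsIntegral L u := Algebra.IsIntegral.isIntegral u
  set m : Polynomial L := minpoly L u with hm
  have hm0 : m.Monic := minpoly.monic hint
  have hmd : m.natDegree ≤ δ := minpoly.natDegree_le u
  have hmu : ∑ j ∈ Finset.range (δ + 1), ((m.coeff j : L) : E) *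
      (aeval ζ p / aeval ζ q) ^ j = 0 := by
    have h2 : Polynomial.aeval u m = 0 := minpoly.aeval L u
    rw [Polynomial.aeval_eq_sum_range' (Nat.lt_succ_of_le hmd)] at h2
    have h3 := congrArg (fun x : F => (x : E)) h2
    have h4 : ((∑ j ∈ Finset.range (δ + 1), m.coeff j • u ^ j : F) : E) = 0 := h3
    rw [← h4]
    have h5 : ∀ (t : Finset ℕ) (f : ℕ → F), ((∑ j ∈ t, f j : F) : E) = ∑ j ∈ t, (f j : E) := by
      intro t f
      exact map_sum (algebraMap F E) f t
    rw [h5]
    refine Finset.sum_congr rfl fun j _ => ?_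
    rw [Algebra.smul_def]
    rfl
  -- clear denominators
  have hfr : ∀ j, ∃ a b : Polynomial k, Polynomial.aeval T b ≠ 0 ∧
      ((m.coeff j : L) : E) * Polynomial.aeval T b = Polynomial.aeval T a := by
    intro j
    obtain ⟨a, b, hab⟩ := (IntermediateField.mem_adjoin_simple_iff k _).1 (m.coeff j).2
    by_cases hb : Polynomial.aeval T b = 0
    · refine ⟨0, 1, by simp, ?_⟩
      rw [hab, hb]
      simp
    · refine ⟨a, b, hb, ?_⟩
      rw [hab, div_mul_cancel₀ _ hb]
  choose a b hb hab using hfr
  refine ⟨fun j => a j * ∏ i ∈ (Finset.range (δ + 1)).erase j, b i, ?_, ?_⟩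
  · refine ⟨m.natDegree, hmd, ?_⟩
    intro h0
    have h2 := congrArg (Polynomial.aeval T) h0
    simp only [map_mul, map_prod, map_zero] at h2
    rw [← hab] at h2
    have h3 : ((m.coeff m.natDegree : L) : E) = 1 := by
      have h4 : m.coeff m.natDegree = 1 := hm0.coeff_natDegree
      rw [h4]
      rfl
    rw [h3, one_mul] at h2
    rcases mul_eq_zero.1 h2 with h4 | h4
    · exact hb _ h4
    · rw [Finset.prod_eq_zero_iff] at h4
      obtain ⟨i, _, hi⟩ := h4
      exact hb i hi
  · have h2 : ∀ j ∈ Finset.range (δ + 1),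
        Polynomial.aeval T (a j * ∏ i ∈ (Finset.range (δ + 1)).erase j, b i) *
          aeval ζ p ^ j * aeval ζ q ^ (δ - j) =
        (∏ i ∈ Finset.range (δ + 1), Polynomial.aeval T (b i)) * aeval ζ q ^ δ *
          (((m.coeff j : L) : E) * (aeval ζ p / aeval ζ q) ^ j) := by
      intro j hj
      have hj' : j ≤ δ := Nat.lt_succ_iff.1 (Finset.mem_range.1 hj)
      rw [map_mul, map_prod, ← hab, ← Finset.mul_prod_erase _ _ hj]
      have h3 : aeval ζ q ^ δ = aeval ζ q ^ (δ - j) * aeval ζ q ^ j := by
        rw [← pow_add, Nat.sub_add_cancel hj']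
      rw [h3, div_pow]
      field_simp
    rw [Finset.sum_congr rfl h2, ← Finset.mul_sum, hmu, mul_zero]

end Pool.Agent.Helper45.RP
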