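import Pool.Agent.Helper65.RP.Ord
import Pool.Agent.Helper65.RP.Defs2
import Pool.Agent.Helper63.RP.Dim
import Pool.Agent.Helper63.RP.Liou
import Pool.Agent.Helper13.RP.Phi

/-!
# Project RP: an ideal of the chart at infinity bounds the dimensions
-/

set_option autoImplicit false

namespace Pool.Agent.Helper45.RP

open MvPolynomial Filter Topology
open Pool.Agent.Helper65.RP

section
variable {K : Type} [Field K] {N : ℕ}

/-- One inclusion suffices for the bound. -/
theorem rho_le_of_imp {W : Type} [AddCommGroup W] [Module K W] [Module.Finite K W]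
    (I : Ideal (MvPolynomial (Fin N) K)) (D : ℕ) (ψ : MvPolynomial (Fin N) K →ₗ[K] W)
    (h : ∀ G : MvPolynomial (Fin N) K, G.totalDegree ≤ D → ψ G = 0 → G ∈ I) :
    rho I D ≤ Module.finrank K W := by
  rw [Pool.Agent.Helper63.RP.rho_eq_range]
  set f := (Ideal.Quotient.mkₐ K I).toLinearMap.domRestrict (restrictTotalDegree (Fin N) K D)
    with hf
  set g := ψ.domRestrict (restrictTotalDegree (Fin N) K D) with hg
  have hker : LinearMap.ker g ≤ LinearMap.ker f := by
    rintro ⟨G, hG⟩ hx
    rw [mem_restrictTotalDegree] at hG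
    rw [LinearMap.mem_ker] at hx ⊢
    exact Ideal.Quotient.eq_zero_iff_mem.2 (h G hG hx)
  have hfin : Module.Finite K (restrictTotalDegree (Fin N) K D ⧸ LinearMap.ker g) :=
    Module.Finite.equiv (LinearMap.quotKerEquivRange g).symm
  have h1 : Module.finrank K (LinearMap.range f) ≤
      Module.finrank K (restrictTotalDegree (Fin N) K D ⧸ LinearMap.ker g) := by
    rw [← (LinearMap.quotKerEquivRange f).finrank_eq]
    exact LinearMap.finrank_le_finrank_of_surjective (f := Submodule.factor hker)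
      (Submodule.factor_surjective hker)
  refine h1.trans ?_
  rw [(LinearMap.quotKerEquivRange g).finrank_eq]
  exact Submodule.finrank_le _

end

section local_
variable {K L Ω : Type} [Field K] [Field L] [Algebra K L] [NormedField Ω]
  [Algebra K Ω] [Algebra L Ω] [IsScalarTower K L Ω] {N e : ℕ}
  {𝒰 : Ultrafilter ℕ} {i₀ : Fin N}
  {F : Fin N → MvPolynomial (Fin N) K} {q : Fin N → L}
  {s : ℕ → ℕ → ℝ} {z : ℕ → ℕ → Fin N → K}

theorem hmg_add (D : ℕ) (p q : MvPolynomial (Fin N) K) :
    hmg L D (p + q) = hmg L D p + hmg L D q := by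
  unfold hmg
  rw [← Finset.sum_add_distrib]
  refine Finset.sum_congr rfl fun k _ => ?_
  rw [map_add, map_add, map_add, mul_add]

theorem hmg_smul (D : ℕ) (c : K) (p : MvPolynomial (Fin N) K) :
    hmg L D (c • p) = c • hmg L D p := by
  unfold hmg
  rw [Finset.smul_sum]
  refine Finset.sum_congr rfl fun k _ => ?_
  have h1 : map (algebraMap K L) (homogeneousComponent k (c • p)) =
      c • map (algebraMap K L) (homogeneousComponent k p) := by
    rw [map_smul, smul_eq_C_mul, map_mul, map_C, Algebra.smul_def]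
    rfl
  rw [h1, Algebra.smul_def, Algebra.smul_def, map_mul]
  have h2 : rename (some : Fin N → Option (Fin N))
      ((algebraMap K (MvPolynomial (Fin N) L)) c) =
      (algebraMap K (MvPolynomial (Option (Fin N)) L)) c := by
    have e1 : (algebraMap K (MvPolynomial (Fin N) L)) c = C (algebraMap K L c) := rfl
    have e2 : (algebraMap K (MvPolynomial (Option (Fin N)) L)) c = C (algebraMap K L c) := rfl
    rw [e1, e2, rename_C]
  rw [h2]
  ring

/-- The value of the homogenised polynomial. -/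
theorem aeval_hmg {D : ℕ} {G : MvPolynomial (Fin N) K} (hG : G.totalDegree ≤ D)
    (x : Fin N → K) (hx : algebraMap K Ω (x i₀) ≠ 0) :
    (algebraMap K Ω (x i₀)) ^ D * aeval (fun o => algebraMap K Ω (pt x i₀ o)) (hmg L D G) =
      algebraMap K Ω (eval x G) := by
  have h1 : ∀ k, aeval (fun o => algebraMap K Ω (pt x i₀ o))
      (rename some (map (algebraMap K L) (homogeneousComponent k G))) =
      aeval (fun i => (algebraMap K Ω (x i₀))⁻¹ * algebraMap K Ω (x i))
        (homogeneousComponent k G) := by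
    intro k
    rw [aeval_rename, aeval_map_algebraMap]
    congr 2
    funext i
    simp only [Function.comp_apply, pt]
    rw [map_div₀, div_eq_inv_mul]
  have h2 : aeval (fun o => algebraMap K Ω (pt x i₀ o)) (hmg L D G) =
      ∑ k ∈ Finset.range (D + 1), ((algebraMap K Ω (x i₀))⁻¹) ^ (D - k) *
        aeval (fun i => (algebraMap K Ω (x i₀))⁻¹ * algebraMap K Ω (x i))
          (homogeneousComponent k G) := by
    unfold hmg
    rw [map_sum]
    refine Finset.sum_congr rfl fun k _ => ?_
    rw [map_mul, map_pow, aeval_X, h1]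
    simp only [pt]
    rw [map_inv₀]
  rw [h2, ← Pool.Agent.Helper13.RP.sum_scale hG hx]
  have h3 : (fun i => algebraMap K Ω (x i₀) * ((algebraMap K Ω (x i₀))⁻¹ *
      algebraMap K Ω (x i))) = fun i => algebraMap K Ω (x i) := by
    funext i
    rw [← mul_assoc, mul_inv_cancel₀ hx, one_mul]
  rw [h3]
  exact (aeval_algebraMap_apply Ω x G)

/-- N4a -/
theorem rho_inf_le [FiniteDimensional K L] {Λ : Type} [Fintype Λ] (Z : PD K Ω Λ) {g : Λ → ℝ}
    (hlev : ∀ m, Lev Ω 𝒰 (s m) (z m) i₀) (hgrow : ∀ m, Grow Z g 𝒰 (s m) (z m)) {κ : ℝ}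
    (I : Ideal (MvPolynomial (Option (Fin N)) L))
    [FiniteDimensional L (MvPolynomial (Option (Fin N)) L ⧸ I)] {m₁ : ℕ}
    (hI : ∀ G ∈ I, ∀ m, m₁ ≤ m → GeOrd 𝒰 (s m) (fun n =>
        aeval (fun o => algebraMap K Ω (pt (z m n) i₀ o)) G) κ) {D : ℕ}
    (hD : D * Z.bd g < κ) :
    rho (⨅ m : {m : ℕ // m₁ ≤ m}, van 𝒰 (z m)) D ≤
      Module.finrank K L * Module.finrank L (MvPolynomial (Option (Fin N)) L ⧸ I) := by
  have hfin : Module.Finite K (MvPolynomial (Option (Fin N)) L ⧸ I) :=
    Module.Finite.trans L _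
  rw [Module.finrank_mul_finrank K L (MvPolynomial (Option (Fin N)) L ⧸ I)]
  set ψ : MvPolynomial (Fin N) K →ₗ[K] (MvPolynomial (Option (Fin N)) L ⧸ I) :=
    { toFun := fun G => Ideal.Quotient.mk I (hmg L D G)
      map_add' := fun G G' => by rw [hmg_add, map_add]
      map_smul' := fun c G => by
        rw [hmg_smul, RingHom.id_apply]
        rfl } with hψ
  refine rho_le_of_imp _ D ψ fun G hG h0 => ?_
  have hmem : hmg L D G ∈ I := Ideal.Quotient.eq_zero_iff_mem.1 h0
  rw [Ideal.mem_iInf]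
  rintro ⟨m, hm⟩
  have h1 := hI _ hmem m hm
  have h2 : GeOrd 𝒰 (s m) (fun n => (algebraMap K Ω (z m n i₀)) ^ D) (-(D : ℝ)) := by
    have h3 := ((hlev m).top.pow (hlev m).hs D).ge (hlev m).hs
    have e1 : (D : ℝ) * (-1) = -(D : ℝ) := by ring
    rwa [e1] at h3
  have h3 : GeOrd 𝒰 (s m) (fun n => algebraMap K Ω (eval (z m n) G)) (-(D : ℝ) + κ) := by
    refine (h2.mul h1).congr ?_
    filter_upwards [(hlev m).top.1] with n hn
    exact aeval_hmg hG (z m n) hn
  refine Pool.Agent.Helper63.RP.liouville Z (hlev m).hs (hgrow m) hG ?_ h3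
  have e2 : (D : ℝ) * Z.bd g = D + D * ((∑ l, g l) / Z.n) := by
    rw [PD.bd]
    ring
  rw [e2] at hD
  linarith

end local_

end Pool.Agent.Helper45.RP
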